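import Mathlib

set_option autoImplicit false

namespace Pool.Agent.MP_bd9ace_nt.H68

open Finset

/-- sum of divisors -/
abbrev sg (n : ℕ) : ℕ := ArithmeticFunction.sigma 1 n

/-- unitary divisor -/
def Uni (d n : ℕ) : Prop := d ∣ n ∧ Nat.Coprime d (n / d)

/-- every prime factor of `σ n` divides `n` -/
def PD (n : ℕ) : Prop := (sg n).primeFactors ⊆ n.primeFactors

/-- same prime factors -/
def PP (n : ℕ) : Prop := n.primeFactors = (sg n).primeFactors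

/-- the primes of `n` are generated from `Z` -/
def Gen (Z : Finset ℕ) (n : ℕ) : Prop :=
  Z ⊆ n.primeFactors ∧ ∀ d, Uni d n → Z ⊆ d.primeFactors → PD d → d = n

lemma sg_ne {n : ℕ} (hn : n ≠ 0) : sg n ≠ 0 :=
  (ArithmeticFunction.sigma_pos 1 n hn).ne'

lemma sg_mul {a b : ℕ} (h : Nat.Coprime a b) : sg (a * b) = sg a * sg b :=
  ArithmeticFunction.isMultiplicative_sigma.map_mul_of_coprime h

lemma Uni.sg_dvd {d n : ℕ} (h : Uni d n) : sg d ∣ sg n := by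
  obtain ⟨⟨c, rfl⟩, hc⟩ := h
  rcases Nat.eq_zero_or_pos d with rfl | hd
  · simp
  · rw [Nat.mul_div_cancel_left _ hd] at hc
    rw [sg_mul hc]; exact Dvd.intro _ rfl

lemma uni_iff {d n : ℕ} (hd : d ≠ 0) : Uni d n ↔ ∃ c, n = d * c ∧ Nat.Coprime d c := by
  constructor
  · rintro ⟨⟨c, rfl⟩, hc⟩
    rw [Nat.mul_div_cancel_left _ (Nat.pos_of_ne_zero hd)] at hc
    exact ⟨c, rfl, hc⟩
  · rintro ⟨c, rfl, hc⟩
    refine ⟨Dvd.intro _ rfl, ?_⟩
    rwa [Nat.mul_div_cancel_left _ (Nat.pos_of_ne_zero hd)]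

lemma Uni.ne_zero {d n : ℕ} (h : Uni d n) (hn : n ≠ 0) : d ≠ 0 := by
  rintro rfl
  exact hn (Nat.eq_zero_of_zero_dvd h.1)

lemma Uni.trans {a b c : ℕ} (h1 : Uni a b) (h2 : Uni b c) (hc : c ≠ 0) : Uni a c := by
  have hb := h2.ne_zero hc
  have ha := h1.ne_zero hb
  obtain ⟨u, rfl, hu⟩ := (uni_iff ha).1 h1
  obtain ⟨v, rfl, hv⟩ := (uni_iff hb).1 h2
  refine (uni_iff ha).2 ⟨u * v, by ring, Nat.Coprime.mul_right hu ?_⟩
  exact Nat.Coprime.coprime_mul_right hv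

lemma uni_self {n : ℕ} (hn : n ≠ 0) : Uni n n :=
  (uni_iff hn).2 ⟨1, by simp, by simp⟩

lemma uni_one (n : ℕ) : Uni 1 n := ⟨one_dvd _, by simp⟩

lemma Uni.factorization_eq {d n p : ℕ} (h : Uni d n) (hn : n ≠ 0) (hp : p ∈ d.primeFactors) :
    d.factorization p = n.factorization p := by
  have hd := h.ne_zero hn
  obtain ⟨c, rfl, hc⟩ := (uni_iff hd).1 h
  have hc0 : c ≠ 0 := by rintro rfl; simp at hn
  rw [Nat.factorization_mul hd hc0]
  have hpp := Nat.prime_of_mem_primeFactors hp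
  have : ¬ p ∣ c := fun h' =>
    hpp.one_lt.ne' (Nat.eq_one_of_dvd_coprimes hc (Nat.dvd_of_mem_primeFactors hp) h')
  simp [Nat.factorization_eq_zero_of_not_dvd this]

lemma uni_pow {n p : ℕ} (hn : n ≠ 0) (hp : p.Prime) : Uni (p ^ n.factorization p) n :=
  ⟨Nat.ordProj_dvd n p, Nat.Coprime.pow_left _ (Nat.coprime_ordCompl hp hn)⟩

lemma Uni.step {d n p : ℕ} (h : Uni d n) (hn : n ≠ 0) (hp : p.Prime) (hpd : ¬ p ∣ d) :
    Uni (d * p ^ n.factorization p) n := by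
  have hd := h.ne_zero hn
  obtain ⟨c, rfl, hc⟩ := (uni_iff hd).1 h
  have hc0 : c ≠ 0 := by rintro rfl; simp at hn
  have e : (d * c).factorization p = c.factorization p := by
    rw [Nat.factorization_mul hd hc0]
    simp [Nat.factorization_eq_zero_of_not_dvd hpd]
  rw [e]
  obtain ⟨u, hu, hcu⟩ := (uni_iff (pow_pos hp.pos _).ne').1 (uni_pow hc0 hp)
  refine (uni_iff (mul_ne_zero hd (pow_pos hp.pos _).ne')).2 ⟨u, ?_, ?_⟩
  · rw [mul_assoc, ← hu]
  · refine Nat.Coprime.mul_left ?_ hcu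
    rw [hu] at hc
    exact Nat.Coprime.coprime_mul_left_right hc

lemma Uni.eq_of_primeFactors {d n : ℕ} (h : Uni d n) (hn : n ≠ 0)
    (hs : n.primeFactors ⊆ d.primeFactors) : d = n := by
  have hd := h.ne_zero hn
  obtain ⟨c, rfl, hc⟩ := (uni_iff hd).1 h
  by_cases h1 : c = 1
  · simp [h1]
  · exfalso
    have hp := Nat.minFac_prime h1
    have : c.minFac ∈ (d * c).primeFactors :=
      Nat.mem_primeFactors.2 ⟨hp, Dvd.dvd.mul_left (Nat.minFac_dvd c) d, hn⟩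
    exact hp.one_lt.ne' (Nat.eq_one_of_dvd_coprimes hc
      (Nat.dvd_of_mem_primeFactors (hs this)) (Nat.minFac_dvd c))

end Pool.Agent.MP_bd9ace_nt.H68
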