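import Pool.Agent.MP_bd9ace_nt.H68.Basic

set_option autoImplicit false

namespace Pool.Agent.MP_bd9ace_nt.H68

open Finset

open Classical in
/-- numbers in `[1, x]` generated from `Z` with unitary divisor `d` -/
noncomputable def fam (x : ℕ) (Z : Finset ℕ) (d : ℕ) : Finset ℕ :=
  (Icc 1 x).filter (fun n => Uni d n ∧ Gen Z n ∧ PD n)

lemma mem_fam {x : ℕ} {Z : Finset ℕ} {d n : ℕ} :
    n ∈ fam x Z d ↔ (1 ≤ n ∧ n ≤ x) ∧ Uni d n ∧ Gen Z n ∧ PD n := by
  simp [fam]

lemma geom_half {r : ℝ} (h0 : 0 ≤ r) (h : r ≤ 1 / 2) (m : ℕ) :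
    ∑ e ∈ Icc 1 m, r ^ e ≤ 1 - r ^ m := by
  induction m with
  | zero => simp
  | succ m ih =>
    rw [Finset.sum_Icc_succ_top (by omega)]
    have : r ^ (m + 1) ≤ r ^ m / 2 := by
      rw [pow_succ]; nlinarith [pow_nonneg h0 m]
    linarith

lemma weight_le (g : ℕ → ℝ) (hg0 : ∀ n, 0 ≤ g n) (hg1 : ∀ n, g n ≤ 1)
    (hm : ∀ a b, g (a * b) = g a * g b) (hone : g 1 = 1) (K : ℕ)
    (hK : ∀ p, K ≤ p → g p ≤ 1 / 2) (x : ℕ) (Z : Finset ℕ) (B : ℝ)
    (hB : (Nat.log 2 x : ℝ) ≤ B) (hB1 : 1 ≤ B) :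
    ∀ k d, d ≠ 0 → x + 1 - d ≤ k →
      ∑ n ∈ fam x Z d, g n ≤ g d * B ^ ((range K).filter (fun q => ¬ q ∣ d)).card := by
  have hpow : ∀ p e, g (p ^ e) = g p ^ e := by
    intro p e
    induction e with
    | zero => simpa using hone
    | succ e ih => rw [pow_succ, hm, ih, pow_succ]
  intro k
  induction k with
  | zero =>
    intro d hd hk
    have : fam x Z d = ∅ := by
      apply Finset.eq_empty_of_forall_notMem
      intro n hn
      obtain ⟨⟨h1, h2⟩, hu, -⟩ := mem_fam.1 hn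
      have := Nat.le_of_dvd h1 hu.1
      omega
    rw [this, sum_empty]
    exact mul_nonneg (hg0 _) (by positivity)
  | succ k ih =>
    intro d hd hk
    by_cases hR : (Z ∪ (sg d).primeFactors) ⊆ d.primeFactors
    · have hsub : fam x Z d ⊆ {d} := by
        intro n hn
        obtain ⟨-, hu, hG, -⟩ := mem_fam.1 hn
        rw [mem_singleton]
        exact (hG.2 d hu (union_subset_left hR) (union_subset_right hR)).symm
      calc ∑ n ∈ fam x Z d, g n ≤ ∑ n ∈ {d}, g n :=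
            sum_le_sum_of_subset_of_nonneg hsub (fun i _ _ => hg0 i)
        _ = g d := sum_singleton _ _
        _ ≤ _ := le_mul_of_one_le_right (hg0 _) (one_le_pow₀ hB1)
    · obtain ⟨p, hp, hpd⟩ := Finset.not_subset.1 hR
      by_cases hne : fam x Z d = ∅
      · rw [hne, sum_empty]
        exact mul_nonneg (hg0 _) (by positivity)
      have hmem : ∀ n ∈ fam x Z d, p ∈ n.primeFactors := by
        intro n hn
        obtain ⟨⟨h1, -⟩, hu, hG, hD⟩ := mem_fam.1 hn
        rcases mem_union.1 hp with h | h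
        · exact hG.1 h
        · exact hD (Nat.primeFactors_mono hu.sg_dvd (sg_ne (by omega)) h)
      obtain ⟨n0, hn0⟩ := Finset.nonempty_iff_ne_empty.2 hne
      have hpp : p.Prime := Nat.prime_of_mem_primeFactors (hmem n0 hn0)
      have hnd : ¬ p ∣ d := fun h => hpd (Nat.mem_primeFactors.2 ⟨hpp, h, hd⟩)
      set m := Nat.log 2 x with hmdef
      have hmaps : ∀ n ∈ fam x Z d, n.factorization p ∈ Icc 1 m := by
        intro n hn
        obtain ⟨⟨h1, h2⟩, -⟩ := mem_fam.1 hn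
        rw [mem_Icc]
        refine ⟨hpp.factorization_pos_of_dvd (by omega)
          (Nat.dvd_of_mem_primeFactors (hmem n hn)), ?_⟩
        apply Nat.le_log_of_pow_le (by norm_num)
        calc 2 ^ n.factorization p ≤ p ^ n.factorization p := Nat.pow_le_pow_left hpp.two_le _
          _ ≤ n := Nat.le_of_dvd h1 (Nat.ordProj_dvd n p)
          _ ≤ x := h2
      rw [← Finset.sum_fiberwise_of_maps_to hmaps]
      set c := ((range K).filter (fun q => ¬ q ∣ d)).card with hc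
      set c' := (((range K).filter (fun q => ¬ q ∣ d)).erase p).card with hc'
      have hfib : ∀ e ∈ Icc 1 m, ∑ n ∈ (fam x Z d).filter (fun n => n.factorization p = e), g n
          ≤ g d * B ^ c' * g p ^ e := by
        intro e he
        have he1 : 1 ≤ e := (mem_Icc.1 he).1
        have hsub : (fam x Z d).filter (fun n => n.factorization p = e) ⊆ fam x Z (d * p ^ e) := by
          intro n hn
          obtain ⟨hn', rfl⟩ := mem_filter.1 hn
          obtain ⟨h1, hu, hG, hD⟩ := mem_fam.1 hn'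
          exact mem_fam.2 ⟨h1, hu.step (by omega) hpp hnd, hG, hD⟩
        have hlt : d < d * p ^ e :=
          (Nat.lt_mul_iff_one_lt_right (Nat.pos_of_ne_zero hd)).2
            (Nat.one_lt_pow (by omega) hpp.one_lt)
        have h1 := ih (d * p ^ e) (by omega) (by omega)
        have hcc : ((range K).filter (fun q => ¬ q ∣ d * p ^ e)).card ≤ c' := by
          apply card_le_card
          intro q hq
          obtain ⟨hq1, hq2⟩ := mem_filter.1 hq
          refine mem_erase.2 ⟨?_, mem_filter.2 ⟨hq1, fun h => hq2 (Dvd.dvd.mul_right h _)⟩⟩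
          rintro rfl
          exact hq2 (Dvd.dvd.mul_left (dvd_pow_self _ (by omega)) _)
        calc _ ≤ ∑ n ∈ fam x Z (d * p ^ e), g n :=
              sum_le_sum_of_subset_of_nonneg hsub (fun i _ _ => hg0 i)
          _ ≤ g (d * p ^ e) * B ^ c' :=
              h1.trans (mul_le_mul_of_nonneg_left (pow_le_pow_right₀ hB1 hcc) (hg0 _))
          _ = _ := by rw [hm, hpow]; ring
      refine (sum_le_sum hfib).trans ?_
      rw [← mul_sum, mul_assoc]
      refine mul_le_mul_of_nonneg_left ?_ (hg0 _)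
      by_cases hpK : K ≤ p
      · have h1 : ∑ e ∈ Icc 1 m, g p ^ e ≤ 1 :=
          (geom_half (hg0 p) (hK p hpK) m).trans (by linarith [pow_nonneg (hg0 p) m])
        calc B ^ c' * ∑ e ∈ Icc 1 m, g p ^ e ≤ B ^ c' * 1 :=
              mul_le_mul_of_nonneg_left h1 (by positivity)
          _ ≤ B ^ c := by
              rw [mul_one]; exact pow_le_pow_right₀ hB1 (card_le_card (erase_subset _ _))
      · have hin : p ∈ (range K).filter (fun q => ¬ q ∣ d) :=
          mem_filter.2 ⟨mem_range.2 (by omega), hnd⟩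
        have hcc : c = c' + 1 := (card_erase_add_one hin).symm
        have h1 : ∑ e ∈ Icc 1 m, g p ^ e ≤ B := by
          calc ∑ e ∈ Icc 1 m, g p ^ e ≤ ∑ e ∈ Icc 1 m, (1 : ℝ) :=
                sum_le_sum (fun e _ => pow_le_one₀ (hg0 p) (hg1 p))
            _ = m := by simp
            _ ≤ B := hB
        rw [hcc, pow_succ]
        exact mul_le_mul_of_nonneg_left h1 (by positivity)

/-- the weight `n ^ (-δ)` -/
noncomputable def wt (δ : ℝ) (n : ℕ) : ℝ := (n : ℝ) ^ (-δ)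

lemma wt_nonneg (δ : ℝ) (n : ℕ) : 0 ≤ wt δ n := Real.rpow_nonneg (Nat.cast_nonneg n) _

lemma wt_le_one {δ : ℝ} (hδ : 0 < δ) (n : ℕ) : wt δ n ≤ 1 := by
  rcases Nat.eq_zero_or_pos n with rfl | h
  · simp [wt, Real.zero_rpow (neg_ne_zero.2 hδ.ne')]
  · exact Real.rpow_le_one_of_one_le_of_nonpos (by exact_mod_cast h) (by linarith)

lemma wt_mul (δ : ℝ) (a b : ℕ) : wt δ (a * b) = wt δ a * wt δ b := by
  unfold wt
  rw [Nat.cast_mul, Real.mul_rpow (Nat.cast_nonneg a) (Nat.cast_nonneg b)]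

lemma wt_one (δ : ℝ) : wt δ 1 = 1 := by simp [wt]

lemma wt_anti {δ : ℝ} (hδ : 0 < δ) {a b : ℕ} (ha : 1 ≤ a) (h : a ≤ b) : wt δ b ≤ wt δ a :=
  Real.rpow_le_rpow_of_nonpos (by exact_mod_cast ha) (by exact_mod_cast h) (by linarith)

lemma one_le_wt {δ : ℝ} (hδ : 0 < δ) {n x : ℕ} (h1 : 1 ≤ n) (h : n ≤ x) :
    1 ≤ (x : ℝ) ^ δ * wt δ n := by
  have hx : (0 : ℝ) < x := by exact_mod_cast (by omega : 0 < x)
  have h2 : (x : ℝ) ^ δ * wt δ x = 1 := by
    unfold wt
    rw [← Real.rpow_add hx]; simp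
  rw [← h2]
  exact mul_le_mul_of_nonneg_left (wt_anti hδ h1 h) (by positivity)

lemma card_fam_le {δ : ℝ} (hδ : 0 < δ) (K : ℕ) (hK1 : 1 ≤ K) (hK : wt δ K ≤ 1 / 2) (x : ℕ)
    (Z : Finset ℕ) (B : ℝ) (hB : (Nat.log 2 x : ℝ) ≤ B) (hB1 : 1 ≤ B) :
    ((fam x Z 1).card : ℝ) ≤ (x : ℝ) ^ δ * B ^ K := by
  have h := weight_le (wt δ) (wt_nonneg δ) (wt_le_one hδ) (wt_mul δ) (wt_one δ) K
    (fun p hp => (wt_anti hδ hK1 hp).trans hK) x Z B hB hB1 _ 1 one_ne_zero le_rfl
  rw [wt_one, one_mul] at h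
  have h2 : B ^ ((range K).filter (fun q => ¬ q ∣ 1)).card ≤ B ^ K :=
    pow_le_pow_right₀ hB1 ((card_filter_le _ _).trans (card_range K).le)
  calc ((fam x Z 1).card : ℝ) = ∑ n ∈ fam x Z 1, (1 : ℝ) := by simp
    _ ≤ ∑ n ∈ fam x Z 1, (x : ℝ) ^ δ * wt δ n := by
        apply sum_le_sum
        intro n hn
        obtain ⟨⟨h1, h2⟩, -⟩ := mem_fam.1 hn
        exact one_le_wt hδ h1 h2
    _ = (x : ℝ) ^ δ * ∑ n ∈ fam x Z 1, wt δ n := by rw [mul_sum]
    _ ≤ _ := mul_le_mul_of_nonneg_left (h.trans h2) (by positivity)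

end Pool.Agent.MP_bd9ace_nt.H68
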