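import Pool.Agent.MP_bd9ace_nt.H68.Basic

set_option autoImplicit false

namespace Pool.Agent.MP_bd9ace_nt.H68

open Finset

lemma dirichlet {ι : Type} [Fintype ι] [DecidableEq ι] (u : ι → ℝ) (Q : ℕ) (hQ : 0 < Q) :
    ∃ t : ℕ, 1 ≤ t ∧ t ≤ Q ^ Fintype.card ι ∧ ∃ w : ι → ℤ, ∀ j, |t * u j - w j| < 1 / Q := by
  have hQ' : (0 : ℝ) < Q := by exact_mod_cast hQ
  have hlt : ∀ y : ℝ, ⌊Q * Int.fract y⌋₊ < Q := by
    intro y
    rw [Nat.floor_lt (mul_nonneg hQ'.le (Int.fract_nonneg y))]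
    nlinarith [Int.fract_lt_one y]
  let f : Fin (Q ^ Fintype.card ι + 1) → (ι → Fin Q) :=
    fun t j => ⟨⌊Q * Int.fract ((t : ℕ) * u j)⌋₊, hlt _⟩
  have key : ∀ s t : Fin (Q ^ Fintype.card ι + 1), s < t → f s = f t →
      ∃ t : ℕ, 1 ≤ t ∧ t ≤ Q ^ Fintype.card ι ∧ ∃ w : ι → ℤ, ∀ j, |t * u j - w j| < 1 / Q := by
    intro s t hst h
    have hst' : (s : ℕ) < t := hst
    refine ⟨t - s, by omega, by have := t.2; omega,
      fun j => ⌊((t : ℕ) : ℝ) * u j⌋ - ⌊((s : ℕ) : ℝ) * u j⌋, fun j => ?_⟩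
    have h1 : ⌊Q * Int.fract (((s : ℕ) : ℝ) * u j)⌋₊ = ⌊Q * Int.fract (((t : ℕ) : ℝ) * u j)⌋₊ :=
      congrArg Fin.val (congrFun h j)
    have a1 := Nat.floor_le (mul_nonneg hQ'.le (Int.fract_nonneg (((s : ℕ) : ℝ) * u j)))
    have a2 := Nat.lt_floor_add_one (Q * Int.fract (((s : ℕ) : ℝ) * u j))
    have b1 := Nat.floor_le (mul_nonneg hQ'.le (Int.fract_nonneg (((t : ℕ) : ℝ) * u j)))
    have b2 := Nat.lt_floor_add_one (Q * Int.fract (((t : ℕ) : ℝ) * u j))
    rw [h1] at a1 a2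
    have e : (((t : ℕ) - (s : ℕ) : ℕ) : ℝ) * u j
        - ((⌊((t : ℕ) : ℝ) * u j⌋ - ⌊((s : ℕ) : ℝ) * u j⌋ : ℤ) : ℝ)
        = Int.fract (((t : ℕ) : ℝ) * u j) - Int.fract (((s : ℕ) : ℝ) * u j) := by
      rw [Nat.cast_sub hst'.le]
      unfold Int.fract
      push_cast
      ring
    rw [e, abs_lt, lt_div_iff₀ hQ', neg_lt, ← neg_lt_neg_iff, neg_neg, ← neg_div,
      div_lt_iff₀ hQ']
    constructor <;> linarith
  obtain ⟨s, t, hne, h⟩ := Fintype.exists_ne_map_eq_of_card_lt f (by simp)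
  rcases lt_or_gt_of_ne hne with h' | h'
  · exact key s t h' h
  · exact key t s h' h.symm

lemma sg_pow_mul {p : ℕ} (hp : p.Prime) (e : ℕ) : sg (p ^ e) * (p - 1) + 1 = p ^ (e + 1) := by
  rw [sg, ArithmeticFunction.sigma_one_apply_prime_pow hp]
  have := Nat.geomSum_eq hp.two_le (e + 1)
  have h2 := geom_sum_mul_add (p - 1) (e + 1)
  rwa [Nat.sub_add_cancel hp.one_le] at h2

lemma sg_pow_gt {p e : ℕ} (hp : p.Prime) (he : 1 ≤ e) : p ^ e < sg (p ^ e) := by
  rw [sg, ArithmeticFunction.sigma_one_apply_prime_pow hp, sum_range_succ]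
  have : 0 < ∑ k ∈ range e, p ^ k :=
    sum_pos (fun i _ => pow_pos hp.pos i) ⟨0, mem_range.2 (by omega)⟩
  omega

lemma sg_pow_lt {p : ℕ} (hp : p.Prime) (e : ℕ) : sg (p ^ e) < 2 * p ^ e := by
  have h := sg_pow_mul hp e
  have h2 := hp.two_le
  obtain ⟨q, rfl⟩ : ∃ q, p = q + 2 := ⟨p - 2, by omega⟩
  have e1 : q + 2 - 1 = q + 1 := by omega
  rw [e1, pow_succ] at h
  by_contra hc
  push Not at hc
  have := Nat.mul_le_mul_right (q + 1) hc
  nlinarith [Nat.zero_le ((q + 2) ^ e * q)]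

lemma eta_lt {p : ℕ} (hp : p.Prime) (e : ℕ) :
    Real.log (sg (p ^ e)) - e * Real.log p < 1 / ((p : ℝ) - 1) := by
  have h2 : (2 : ℝ) ≤ p := by exact_mod_cast hp.two_le
  have h : (sg (p ^ e) : ℝ) * (p - 1) + 1 = p ^ (e + 1) := by
    have := sg_pow_mul hp e
    have h3 : ((p - 1 : ℕ) : ℝ) = p - 1 := by rw [Nat.cast_sub hp.one_le]; simp
    rw [← h3]; exact_mod_cast this
  have hs : (0 : ℝ) < sg (p ^ e) := by
    exact_mod_cast Nat.pos_of_ne_zero (sg_ne (pow_pos hp.pos e).ne')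
  have hpe : (0 : ℝ) < (p : ℝ) ^ e := by positivity
  rw [← Real.log_pow, ← Real.log_div hs.ne' hpe.ne']
  refine (Real.log_le_sub_one_of_pos (div_pos hs hpe)).trans_lt ?_
  rw [sub_lt_iff_lt_add, div_lt_iff₀ hpe, div_add_one (by linarith), div_mul_eq_mul_div,
    lt_div_iff₀ (by linarith)]
  rw [pow_succ] at h
  nlinarith

lemma eta_pos {p e : ℕ} (hp : p.Prime) (he : 1 ≤ e) :
    0 < Real.log (sg (p ^ e)) - e * Real.log p := by
  rw [← Real.log_pow, sub_pos]
  apply Real.log_lt_log (by have := hp.pos; positivity)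
  exact_mod_cast sg_pow_gt hp he

lemma log_eq_sum {y : ℕ} {S : Finset ℕ} (h : y.primeFactors ⊆ S) :
    Real.log y = ∑ j ∈ S, (y.factorization j : ℝ) * Real.log j := by
  rw [Real.log_nat_eq_sum_factorization, Finsupp.sum_of_support_subset _ h]
  intro i _; simp

lemma two_pow_sum_le {y : ℕ} (hy : y ≠ 0) {S : Finset ℕ} (h : y.primeFactors ⊆ S) :
    2 ^ (∑ j ∈ S, y.factorization j) ≤ y := by
  have h1 : ∑ j ∈ S, y.factorization j = ∑ j ∈ y.primeFactors, y.factorization j := by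
    symm
    apply sum_subset h
    intro j _ hj
    exact Finsupp.notMem_support_iff.1 hj
  rw [h1, ← prod_pow_eq_pow_sum]
  conv_rhs => rw [← Nat.prod_factorization_pow_eq_self hy]
  apply prod_le_prod'
  intro j hj
  exact Nat.pow_le_pow_left (Nat.prime_of_mem_primeFactors hj).two_le _

lemma PD.sub {n i : ℕ} (h : PD n) (hn : n ≠ 0) (hi : i.Prime) :
    (sg (i ^ n.factorization i)).primeFactors ⊆ n.primeFactors :=
  (Nat.primeFactors_mono (uni_pow hn hi).sg_dvd (sg_ne hn)).trans h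

theorem minFac_le {n : ℕ} (hn : 1 < n) (h : PD n) :
    n.minFac ≤ 2 * (4 * Nat.log 2 n + 2) ^ (n.primeFactors.card - 1) := by
  classical
  by_contra hc
  push Not at hc
  have hn0 : n ≠ 0 := by omega
  set S := n.primeFactors with hS
  set p := n.minFac with hp
  set m := Nat.log 2 n with hm
  set Q := 4 * m + 2 with hQ
  have hpp : p.Prime := Nat.minFac_prime (by omega)
  have hpS : p ∈ S := Nat.mem_primeFactors.2 ⟨hpp, Nat.minFac_dvd n, hn0⟩
  have hQ0 : 0 < Q := by omega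
  have hQ' : (0 : ℝ) < Q := by exact_mod_cast hQ0
  have hp3 : 3 ≤ p := by
    have := Nat.one_le_pow (S.card - 1) Q hQ0
    omega
  have hlp : 1 < Real.log p := by
    rw [Real.lt_log_iff_exp_lt (by have := hpp.pos; positivity)]
    have : (3 : ℝ) ≤ p := by exact_mod_cast hp3
    linarith [Real.exp_one_lt_three]
  have hple : ∀ j ∈ S, p ≤ j := fun j hj =>
    Nat.minFac_le_of_dvd (Nat.prime_of_mem_primeFactors hj).two_le (Nat.dvd_of_mem_primeFactors hj)
  set u : ℕ → ℝ := fun j => Real.log j / Real.log p with hu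
  have hu1 : ∀ j ∈ S, 1 ≤ u j := by
    intro j hj
    rw [hu, one_le_div (by linarith)]
    exact Real.log_le_log (by have := hpp.pos; positivity) (by exact_mod_cast hple j hj)
  obtain ⟨t, ht1, ht2, w, hw⟩ := dirichlet (fun j : (S.erase p) => u j) Q hQ0
  rw [Fintype.card_coe, card_erase_of_mem hpS] at ht2
  set W : ℕ → ℤ := fun j => if hj : j ∈ S.erase p then w ⟨j, hj⟩ else t with hW
  have hWu : ∀ j ∈ S, |t * u j - W j| < 1 / Q := by
    intro j hj
    by_cases hj' : j ∈ S.erase p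
    · simp only [hW, dif_pos hj']; exact hw ⟨j, hj'⟩
    · have : j = p := by
        by_contra hne; exact hj' (mem_erase.2 ⟨hne, hj⟩)
      simp only [hW, dif_neg hj']
      rw [this, hu]
      simp only
      rw [div_self (by linarith)]
      simpa using hQ0
  have ht1' : (1 : ℝ) ≤ t := by exact_mod_cast ht1
  have hQ1 : 1 / (Q : ℝ) ≤ 1 := by
    rw [div_le_one hQ']; exact_mod_cast hQ0
  have hWpos : ∀ j ∈ S, (0 : ℝ) < W j := by
    intro j hj
    have := (abs_lt.1 (hWu j hj)).2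
    nlinarith [hu1 j hj]
  set e : ℕ → ℕ := fun i => n.factorization i with he
  set a : ℕ → ℕ → ℕ := fun i j => (sg (i ^ e i)).factorization j with ha
  have hrow : ∀ i ∈ S, ∑ j ∈ S, (a i j : ℝ) * u j - e i * u i
      = (Real.log (sg (i ^ e i)) - e i * Real.log i) / Real.log p := by
    intro i hi
    rw [log_eq_sum (h.sub hn0 (Nat.prime_of_mem_primeFactors hi)), sub_div, sum_div]
    simp only [hu, mul_div_assoc]
    rfl
  have he1 : ∀ i ∈ S, 1 ≤ e i := fun i hi =>
    (Nat.prime_of_mem_primeFactors hi).factorization_pos_of_dvd hn0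
      (Nat.dvd_of_mem_primeFactors hi)
  have hpos : ∀ i ∈ S, 0 < ∑ j ∈ S, (a i j : ℝ) * u j - e i * u i := by
    intro i hi
    rw [hrow i hi]
    exact div_pos (eta_pos (Nat.prime_of_mem_primeFactors hi) (he1 i hi)) (by linarith)
  have hzero : ∀ i ∈ S, ∑ j ∈ S, (a i j : ℝ) * W j - e i * W i = 0 := by
    intro i hi
    have hip := Nat.prime_of_mem_primeFactors hi
    have hle : i ^ e i ≤ n := Nat.le_of_dvd (by omega) (Nat.ordProj_dvd n i)
    have hem : e i ≤ m := Nat.le_log_of_pow_le (by norm_num)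
      ((Nat.pow_le_pow_left hip.two_le _).trans hle)
    have ham : ∑ j ∈ S, a i j ≤ m + 1 := by
      have h1 := two_pow_sum_le (sg_ne (pow_pos hip.pos (e i)).ne') (h.sub hn0 hip)
      have h2 := sg_pow_lt hip (e i)
      have h3 : n < 2 ^ (m + 1) := Nat.lt_pow_succ_log_self (by norm_num) n
      have h4 : 2 ^ (∑ j ∈ S, a i j) < 2 ^ (m + 2) := by
        calc _ ≤ _ := h1
          _ < 2 * n := by omega
          _ ≤ 2 ^ (m + 2) := by rw [pow_succ]; omega
      have := (Nat.pow_lt_pow_iff_right (by norm_num : 1 < 2)).1 h4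
      omega
    have hsmall : t * (∑ j ∈ S, (a i j : ℝ) * u j - e i * u i) < 1 / 2 := by
      rw [hrow i hi]
      have h1 := eta_lt hip (e i)
      have h0 := eta_pos hip (he1 i hi)
      have h2 : (p : ℝ) ≤ i := by exact_mod_cast hple i hi
      have h3 : (2 * t : ℝ) ≤ p - 1 := by
        have : 2 * t + 1 ≤ p := by omega
        have : ((2 * t + 1 : ℕ) : ℝ) ≤ p := by exact_mod_cast this
        push_cast at this; linarith
      have h4 : 1 / ((i : ℝ) - 1) ≤ 1 / (2 * t) :=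
        one_div_le_one_div_of_le (by linarith) (by linarith)
      have h5 : (Real.log (sg (i ^ e i)) - e i * Real.log i) / Real.log p < 1 / (2 * t) :=
        (div_le_self h0.le hlp.le).trans_lt (h1.trans_le h4)
      calc _ < t * (1 / (2 * t) : ℝ) := mul_lt_mul_of_pos_left h5 (by linarith)
        _ = 1 / 2 := by field_simp
    have herr : |∑ j ∈ S, (a i j : ℝ) * (t * u j - W j) - e i * (t * u i - W i)| ≤ 1 / 2 := by
      calc _ ≤ |∑ j ∈ S, (a i j : ℝ) * (t * u j - W j)| + |(e i : ℝ) * (t * u i - W i)| :=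
            abs_sub _ _
        _ ≤ ∑ j ∈ S, (a i j : ℝ) * (1 / Q) + e i * (1 / Q) := by
            apply add_le_add
            · refine (abs_sum_le_sum_abs _ _).trans (sum_le_sum fun j hj => ?_)
              rw [abs_mul, Nat.abs_cast]
              exact mul_le_mul_of_nonneg_left (hWu j hj).le (Nat.cast_nonneg _)
            · rw [abs_mul, Nat.abs_cast]
              exact mul_le_mul_of_nonneg_left (hWu i hi).le (Nat.cast_nonneg _)
        _ = ((∑ j ∈ S, a i j + e i : ℕ) : ℝ) / Q := by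
            rw [← sum_mul]; push_cast; ring
        _ ≤ 1 / 2 := by
            rw [div_le_div_iff₀ hQ' (by norm_num)]
            have : (∑ j ∈ S, a i j + e i) * 2 ≤ 1 * Q := by omega
            exact_mod_cast this
    have hid : ∑ j ∈ S, (a i j : ℝ) * W j - e i * W i
        = t * (∑ j ∈ S, (a i j : ℝ) * u j - e i * u i)
          - (∑ j ∈ S, (a i j : ℝ) * (t * u j - W j) - e i * (t * u i - W i)) := by
      simp only [mul_sub, sum_sub_distrib, mul_sum]
      have : ∑ j ∈ S, (t : ℝ) * ((a i j : ℝ) * u j) = ∑ j ∈ S, (a i j : ℝ) * (t * u j) :=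
        sum_congr rfl fun j _ => by ring
      rw [this]; ring
    have hint : |((∑ j ∈ S, (a i j : ℤ) * W j - e i * W i : ℤ) : ℝ)| < 1 := by
      push_cast
      rw [hid, abs_lt]
      have := abs_le.1 herr
      have h0 := mul_pos (by linarith : (0 : ℝ) < t) (hpos i hi)
      constructor <;> linarith
    have : (∑ j ∈ S, (a i j : ℤ) * W j - e i * W i : ℤ) = 0 := by
      rw [← Int.cast_abs] at hint
      have : |(∑ j ∈ S, (a i j : ℤ) * W j - e i * W i : ℤ)| < 1 := by exact_mod_cast hint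
      exact Int.abs_lt_one_iff.1 this
    exact_mod_cast this
  obtain ⟨i, hi, hmax⟩ := exists_max_image S (fun j => u j / W j) ⟨p, hpS⟩
  have h1 : ∑ j ∈ S, (a i j : ℝ) * u j ≤ ∑ j ∈ S, (a i j : ℝ) * (u i / W i * W j) := by
    refine sum_le_sum fun j hj => mul_le_mul_of_nonneg_left ?_ (Nat.cast_nonneg _)
    have := hmax j hj
    rwa [div_le_iff₀ (hWpos j hj)] at this
  have h2 : ∑ j ∈ S, (a i j : ℝ) * (u i / W i * W j) = e i * u i := by
    have h3 : ∑ j ∈ S, (a i j : ℝ) * (u i / W i * W j)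
        = u i / W i * ∑ j ∈ S, (a i j : ℝ) * W j := by
      rw [mul_sum]; exact sum_congr rfl fun j _ => by ring
    have h4 := hzero i hi
    have h5 := (hWpos i hi).ne'
    rw [h3, sub_eq_zero.1 h4]
    field_simp
  linarith [hpos i hi]

end Pool.Agent.MP_bd9ace_nt.H68
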