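import Pool.Agent.MP_bd9ace_nt.H68.Least

set_option autoImplicit false

namespace Pool.Agent.MP_bd9ace_nt.H68

open Finset

lemma even_of_odd_sg {p e : ℕ} (hp : p.Prime) (ho : Odd p) (h : ¬ 2 ∣ sg (p ^ e)) : Even e := by
  rw [sg, ArithmeticFunction.sigma_one_apply_prime_pow hp] at h
  have key : ∀ j, (∑ k ∈ range j, p ^ k) % 2 = j % 2 := by
    intro j
    induction j with
    | zero => simp
    | succ j ih =>
      rw [sum_range_succ]
      have := Nat.odd_iff.1 (ho.pow (n := j))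
      omega
  have := key (e + 1)
  rw [Nat.even_iff]
  omega

lemma not_dvd_sg {p : ℕ} (hp : p.Prime) (e : ℕ) : ¬ p ∣ sg (p ^ e) := by
  intro h
  have h1 := sg_pow_mul hp e
  have h2 : p ∣ sg (p ^ e) * (p - 1) + 1 := h1 ▸ dvd_pow_self p (by omega)
  exact hp.one_lt.ne' (Nat.dvd_one.1 ((Nat.dvd_add_right (Dvd.dvd.mul_right h _)).1 h2))

/-- edge `p → q` when `q` divides `σ (p ^ e)`, `p ^ e` the exact power in `n` -/
def Ed (n p q : ℕ) : Prop :=
  p ∈ n.primeFactors ∧ q ∈ (sg (p ^ n.factorization p)).primeFactors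

lemma exists_in {n q : ℕ} (hn : n ≠ 0) (h : PP n) (hq : q ∈ n.primeFactors) :
    ∃ p, p ≠ q ∧ Ed n p q := by
  have hqp := Nat.prime_of_mem_primeFactors hq
  have h1 : q ∣ sg n := Nat.dvd_of_mem_primeFactors (h ▸ hq)
  rw [sg, ArithmeticFunction.isMultiplicative_sigma.multiplicative_factorization _ hn,
    Finsupp.prod] at h1
  obtain ⟨p, hp, hd⟩ := (Prime.dvd_finsetProd_iff hqp.prime _).1 h1
  have hpp := Nat.prime_of_mem_primeFactors hp
  refine ⟨p, ?_, hp, Nat.mem_primeFactors.2 ⟨hqp, hd, sg_ne (pow_pos hpp.pos _).ne'⟩⟩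
  rintro rfl
  exact not_dvd_sg hpp _ hd

lemma closed_of_uni {n d : ℕ} (hn : n ≠ 0) (hu : Uni d n) (hd : PD d) {p q : ℕ}
    (hp : p ∈ d.primeFactors) (h : Relation.ReflTransGen (Ed n) p q) : q ∈ d.primeFactors := by
  induction h with
  | refl => exact hp
  | tail _ h2 ih =>
    have := h2.2
    rw [← hu.factorization_eq hn ih] at this
    exact hd.sub (hu.ne_zero hn) (Nat.prime_of_mem_primeFactors ih) this

/-- members of a mutual pair -/
def Mills (z : ℕ) : Prop := ∃ w, z ≤ w ∧ z ∣ w ^ 2 + w + 1 ∧ w ∣ z ^ 2 + z + 1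

lemma sg_sq {p : ℕ} (hp : p.Prime) : sg (p ^ 2) = p ^ 2 + p + 1 := by
  rw [sg, ArithmeticFunction.sigma_one_apply_prime_pow hp]
  simp [sum_range_succ]; ring

theorem exists_seeds {n : ℕ} (ho : Odd n) (h : PP n) :
    ∃ Z₁ Z₂ : Finset ℕ, Gen (Z₁ ∪ Z₂) n ∧ (∏ z ∈ Z₁, z) ^ 6 ≤ n ∧ ∀ z ∈ Z₂, Mills z := by
  classical
  have hn : n ≠ 0 := by rintro rfl; simp at ho
  have hD : PD n := by unfold PD; rw [← h]
  set S := n.primeFactors with hS
  set R := Relation.ReflTransGen (Ed n) with hR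
  set C : ℕ → Finset ℕ := fun q => S.filter (fun w => R w q) with hC
  set Z := S.filter (fun z => ∀ w ∈ S, R w z → R z w ∧ z ≤ w) with hZ
  have hreach : ∀ q ∈ S, ∃ z ∈ Z, R z q := by
    intro q hq
    obtain ⟨w0, hw0, hmin⟩ := exists_min_image (C q) (fun w => (C w).card)
      ⟨q, mem_filter.2 ⟨hq, Relation.ReflTransGen.refl⟩⟩
    obtain ⟨hw0S, hw0q⟩ := mem_filter.1 hw0
    have hback : ∀ w ∈ S, R w w0 → R w0 w := by
      intro w hw hww
      have hsub : C w ⊆ C w0 := fun v hv =>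
        mem_filter.2 ⟨(mem_filter.1 hv).1, (mem_filter.1 hv).2.trans hww⟩
      have heq : C w = C w0 :=
        eq_of_subset_of_card_le hsub (hmin w (mem_filter.2 ⟨hw, hww.trans hw0q⟩))
      have : w0 ∈ C w := heq ▸ mem_filter.2 ⟨hw0S, Relation.ReflTransGen.refl⟩
      exact (mem_filter.1 this).2
    obtain ⟨z, hz, hzmin⟩ := exists_min_image (C w0) (fun w => w)
      ⟨w0, mem_filter.2 ⟨hw0S, Relation.ReflTransGen.refl⟩⟩
    obtain ⟨hzS, hzw⟩ := mem_filter.1 hz
    refine ⟨z, mem_filter.2 ⟨hzS, fun w hw hwz => ⟨?_, ?_⟩⟩, hzw.trans hw0q⟩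
    · exact hzw.trans (hback w hw (hwz.trans hzw))
    · exact hzmin w (mem_filter.2 ⟨hw, hwz.trans hzw⟩)
  have heven : ∀ p ∈ S, Even (n.factorization p) ∧ 2 ≤ n.factorization p := by
    intro p hp
    have hpp := Nat.prime_of_mem_primeFactors hp
    have hev : Even (n.factorization p) := by
      apply even_of_odd_sg hpp (ho.of_dvd_nat (Nat.dvd_of_mem_primeFactors hp))
      intro h2
      have : 2 ∈ S := hD.sub hn hpp
        (Nat.mem_primeFactors.2 ⟨Nat.prime_two, h2, sg_ne (pow_pos hpp.pos _).ne'⟩)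
      exact (Nat.not_even_iff_odd.2 ho) (even_iff_two_dvd.2 (Nat.dvd_of_mem_primeFactors this))
    have := hpp.factorization_pos_of_dvd hn (Nat.dvd_of_mem_primeFactors hp)
    obtain ⟨r, hr⟩ := hev
    exact ⟨⟨r, hr⟩, by omega⟩
  have hwt : ∀ z ∈ Z, ∀ T ⊆ C z, 6 ≤ ∑ w ∈ T, n.factorization w →
      z ^ 6 ≤ ∏ w ∈ C z, w ^ n.factorization w := by
    intro z hz T hT h6
    obtain ⟨hzS, hzm⟩ := mem_filter.1 hz
    have hz1 := (Nat.prime_of_mem_primeFactors hzS).one_le
    calc z ^ 6 ≤ z ^ ∑ w ∈ C z, n.factorization w :=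
          Nat.pow_le_pow_right hz1 (h6.trans (sum_le_sum_of_subset hT))
      _ = ∏ w ∈ C z, z ^ n.factorization w := (prod_pow_eq_pow_sum _ _ _).symm
      _ ≤ _ := prod_le_prod' fun w hw =>
          Nat.pow_le_pow_left (hzm w (mem_filter.1 hw).1 (mem_filter.1 hw).2).2 _
  have hdich : ∀ z ∈ Z, ¬ Mills z → z ^ 6 ≤ ∏ w ∈ C z, w ^ n.factorization w := by
    intro z hz hM
    obtain ⟨hzS, hzm⟩ := mem_filter.1 hz
    obtain ⟨w, hwz, hE⟩ := exists_in hn h hzS
    obtain ⟨v, hvw, hE'⟩ := exists_in hn h hE.1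
    have hzC : z ∈ C z := mem_filter.2 ⟨hzS, Relation.ReflTransGen.refl⟩
    have hwC : w ∈ C z := mem_filter.2 ⟨hE.1, Relation.ReflTransGen.single hE⟩
    have hvC : v ∈ C z := mem_filter.2 ⟨hE'.1, (Relation.ReflTransGen.single hE').tail hE⟩
    by_cases hvz : v = z
    · subst hvz
      apply hwt v hz {v, w} (by
        intro y hy
        rcases mem_insert.1 hy with rfl | hy
        · exact hzC
        · rw [mem_singleton.1 hy]; exact hwC)
      rw [sum_pair hvw]
      by_contra hc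
      obtain ⟨⟨r, hr⟩, h2⟩ := heven v hzS
      obtain ⟨⟨s, hs⟩, h3⟩ := heven w hE.1
      have e1 : n.factorization v = 2 := by omega
      have e2 : n.factorization w = 2 := by omega
      apply hM
      refine ⟨w, (hzm w hE.1 (Relation.ReflTransGen.single hE)).2, ?_, ?_⟩
      · have := Nat.dvd_of_mem_primeFactors hE.2
        rwa [e2, sg_sq (Nat.prime_of_mem_primeFactors hE.1)] at this
      · have := Nat.dvd_of_mem_primeFactors hE'.2
        rwa [e1, sg_sq (Nat.prime_of_mem_primeFactors hzS)] at this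
    · apply hwt z hz {v, w, z} (by
        intro y hy
        simp only [mem_insert, mem_singleton] at hy
        rcases hy with rfl | rfl | rfl <;> assumption)
      rw [sum_insert (by simp [hvw, hvz]), sum_pair hwz]
      have := (heven v hE'.1).2
      have := (heven w hE.1).2
      have := (heven z hzS).2
      omega
  refine ⟨Z.filter (fun z => ¬ Mills z), Z.filter Mills, ?_, ?_, fun z hz => (mem_filter.1 hz).2⟩
  · rw [union_comm, filter_union_filter_not_eq]
    refine ⟨filter_subset _ _, fun d hu hZd hd => hu.eq_of_primeFactors hn fun q hq => ?_⟩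
    obtain ⟨z, hz, hzq⟩ := hreach q hq
    exact closed_of_uni hn hu hd (hZd hz) hzq
  · have hdisj : Set.PairwiseDisjoint (↑(Z.filter (fun z => ¬ Mills z)) : Set ℕ) C := by
      intro z hz z' hz' hne
      rw [Function.onFun, disjoint_left]
      intro w hw hw'
      obtain ⟨hzS, hzm⟩ := mem_filter.1 (mem_filter.1 hz).1
      obtain ⟨hzS', hzm'⟩ := mem_filter.1 (mem_filter.1 hz').1
      obtain ⟨hwS, hwz⟩ := mem_filter.1 hw
      have hwz' := (mem_filter.1 hw').2
      have h1 := (hzm' z hzS ((hzm w hwS hwz).1.trans hwz')).2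
      have h2 := (hzm z' hzS' ((hzm' w hwS hwz').1.trans hwz)).2
      exact hne (le_antisymm h2 h1)
    calc (∏ z ∈ Z.filter (fun z => ¬ Mills z), z) ^ 6
        = ∏ z ∈ Z.filter (fun z => ¬ Mills z), z ^ 6 := (prod_pow _ _ _).symm
      _ ≤ ∏ z ∈ Z.filter (fun z => ¬ Mills z), ∏ w ∈ C z, w ^ n.factorization w :=
          prod_le_prod' fun z hz => hdich z (mem_filter.1 hz).1 (mem_filter.1 hz).2
      _ = ∏ w ∈ (Z.filter (fun z => ¬ Mills z)).biUnion C, w ^ n.factorization w :=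
          (prod_biUnion hdisj).symm
      _ ≤ ∏ w ∈ S, w ^ n.factorization w := by
          apply prod_le_prod_of_subset_of_one_le'
          · intro w hw
            obtain ⟨z, -, hz⟩ := mem_biUnion.1 hw
            exact (mem_filter.1 hz).1
          · intro w hw _
            exact Nat.one_le_pow _ _ (Nat.prime_of_mem_primeFactors hw).pos
      _ = n := Nat.prod_factorization_pow_eq_self hn

/-- the chain of mutual pairs -/
def chain : ℕ → ℕ × ℕ
  | 0 => (1, 1)
  | k + 1 => ((chain k).2, ((chain k).2 ^ 2 + (chain k).2 + 1) / (chain k).1)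

lemma mem_chain : ∀ w z : ℕ, 1 ≤ z → z ≤ w → z ∣ w ^ 2 + w + 1 → w ∣ z ^ 2 + z + 1 →
    ∃ k, chain k = (z, w) := by
  intro w
  induction w using Nat.strong_induction_on with
  | _ w ih =>
    intro z hz hzw h1 h2
    rcases hzw.eq_or_lt with rfl | hlt
    · have : z ∣ 1 := (Nat.dvd_add_right (dvd_add (dvd_pow_self z two_ne_zero) dvd_rfl)).1 h1
      exact ⟨0, by rw [Nat.dvd_one.1 this]; rfl⟩
    · obtain ⟨y, hy⟩ := h2
      have hy1 : 1 ≤ y := by
        rcases Nat.eq_zero_or_pos y with rfl | h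
        · simp at hy
        · exact h
      have hyz : y ≤ z := by
        by_contra hc
        push Not at hc
        have : (z + 1) * (z + 1) ≤ w * y := Nat.mul_le_mul hlt hc
        nlinarith
      have hcop : Nat.Coprime z w := by
        apply Nat.coprime_of_dvd
        intro k hk hkz hkw
        have h3 : k ∣ z ^ 2 + z + 1 := hy ▸ Dvd.dvd.mul_right hkw y
        exact hk.one_lt.ne' (Nat.dvd_one.1
          ((Nat.dvd_add_right (dvd_add (hkz.trans (dvd_pow_self z two_ne_zero)) hkz)).1 h3))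
      have h4 : z ∣ y ^ 2 + y + 1 := by
        apply (Nat.Coprime.pow_right 2 hcop).dvd_of_dvd_mul_left
        have e : w ^ 2 * (y ^ 2 + y + 1)
            = (w ^ 2 + w + 1) + z * ((z + 1) * (z ^ 2 + z + 2 + w)) := by
          have : w ^ 2 * (y ^ 2 + y + 1) = (w * y) ^ 2 + w * (w * y) + w ^ 2 := by ring
          rw [this, ← hy]; ring
        rw [e]
        exact dvd_add h1 (Dvd.intro _ rfl)
      obtain ⟨k, hk⟩ := ih z hlt y hy1 hyz (hy ▸ Dvd.intro_left w rfl) h4
      refine ⟨k + 1, ?_⟩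
      rw [chain, hk]
      simp only
      rw [hy, Nat.mul_div_cancel _ hy1]

lemma chain_grow (k : ℕ) :
    2 ^ k ≤ (chain (k + 1)).1 ∧ 2 * (chain (k + 1)).1 ≤ (chain (k + 1)).2 := by
  induction k with
  | zero => simp [chain]
  | succ k ih =>
    obtain ⟨h1, h2⟩ := ih
    have h0 : 0 < (chain (k + 1)).1 := lt_of_lt_of_le (by positivity) h1
    rw [chain]
    simp only
    refine ⟨by rw [pow_succ]; omega, ?_⟩
    rw [Nat.le_div_iff_mul_le h0]
    nlinarith

lemma Mills.mem {z : ℕ} (hz : 1 ≤ z) (h : Mills z) : ∃ k, z = (chain (k + 1)).1 := by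
  obtain ⟨w, h1, h2, h3⟩ := h
  obtain ⟨k, hk⟩ := mem_chain w z hz h1 h2 h3
  cases k with
  | zero => exact ⟨0, by rw [chain] at hk; simp [chain, ← (Prod.mk.inj hk).1]⟩
  | succ k => exact ⟨k, by rw [hk]⟩

/-- a minimal closed unitary divisor is prime-perfect and has no proper prime-perfect part -/
theorem exists_prim : ∀ n : ℕ, 1 < n → PD n →
    ∃ d, Uni d n ∧ 1 < d ∧ PP d ∧ ∀ c, 1 < c → Uni c d → PP c → c = d := by
  classical
  intro n
  induction n using Nat.strong_induction_on with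
  | _ n ih =>
    intro hn hD
    have hn0 : n ≠ 0 := by omega
    by_cases hex : ∃ c, 1 < c ∧ Uni c n ∧ PD c ∧ c ≠ n
    · obtain ⟨c, h1, hu, hc, hne⟩ := hex
      have hlt : c < n := lt_of_le_of_ne (Nat.le_of_dvd (by omega) hu.1) hne
      obtain ⟨d, hd, h⟩ := ih c hlt h1 hc
      exact ⟨d, hd.trans hu hn0, h⟩
    · push Not at hex
      refine ⟨n, uni_self hn0, hn, ?_, fun c h1 hu hc => hex c h1 hu (by unfold PD; rw [← hc])⟩
      refine Subset.antisymm ?_ hD
      intro q hq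
      by_contra hqs
      have hqp := Nat.prime_of_mem_primeFactors hq
      obtain ⟨c, hc, hcop⟩ := (uni_iff (pow_pos hqp.pos _).ne').1 (uni_pow hn0 hqp)
      have he := hqp.factorization_pos_of_dvd hn0 (Nat.dvd_of_mem_primeFactors hq)
      have hc0 : c ≠ 0 := by rintro rfl; simp at hc; omega
      have huc : Uni c n := (uni_iff hc0).2 ⟨_, by rw [mul_comm]; exact hc, hcop.symm⟩
      have hsub : ∀ r ∈ (sg n).primeFactors, r ∈ c.primeFactors := by
        intro r hr
        have hrp := Nat.prime_of_mem_primeFactors hr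
        have h1 := Nat.dvd_of_mem_primeFactors (hD hr)
        rw [hc] at h1
        rcases (Nat.Prime.dvd_mul hrp).1 h1 with h2 | h2
        · have := (Nat.prime_dvd_prime_iff_eq hrp hqp).1 (hrp.dvd_of_dvd_pow h2)
          exact absurd (this ▸ hr) hqs
        · exact Nat.mem_primeFactors.2 ⟨hrp, h2, hc0⟩
      have hc1 : 1 < c := by
        have h1 : 1 < sg n := by
          have h2 := Nat.le_of_dvd (Nat.pos_of_ne_zero (sg_ne hn0)) (uni_pow hn0 hqp).sg_dvd
          have h3 := sg_pow_gt hqp he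
          have h4 := pow_pos hqp.pos (n.factorization q)
          omega
        obtain ⟨r, hr⟩ := Nat.nonempty_primeFactors.2 h1
        exact Nat.nonempty_primeFactors.1 ⟨r, hsub r hr⟩
      have hcD : PD c := fun r hr => hsub r (Nat.primeFactors_mono huc.sg_dvd (sg_ne hn0) hr)
      have := hex c hc1 huc hcD
      rw [this] at hcop
      exact hqp.one_lt.ne' (Nat.eq_one_of_dvd_coprimes hcop (dvd_pow_self q (by omega))
        (Nat.dvd_of_mem_primeFactors hq))

lemma gen_of_prim {n : ℕ} (hn : 1 < n) (h : ∀ c, 1 < c → Uni c n → PP c → c = n) :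
    Gen {n.minFac} n := by
  have hn0 : n ≠ 0 := by omega
  refine ⟨singleton_subset_iff.2 (Nat.mem_primeFactors.2
    ⟨Nat.minFac_prime (by omega), Nat.minFac_dvd n, hn0⟩), fun d hu hZ hd => ?_⟩
  have h1 : 1 < d := Nat.nonempty_primeFactors.1 ⟨_, singleton_subset_iff.1 hZ⟩
  obtain ⟨c, hc, hc1, hcp, -⟩ := exists_prim d h1 hd
  have := h c hc1 (hc.trans hu hn0) hcp
  exact Nat.dvd_antisymm hu.1 (this ▸ hc.1)

end Pool.Agent.MP_bd9ace_nt.H68
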