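import Pool.Agent.MP_bd9ace_nt.H68.Count
import Pool.Agent.MP_bd9ace_nt.H68.Seeds

set_option autoImplicit false

namespace Pool.Agent.MP_bd9ace_nt.H68

open Finset

theorem log_minFac_sq {n : ℕ} (hn : 1 < n) (h : PD n) :
    Real.log n.minFac ^ 2 ≤ Real.log n * Real.log (4 * Nat.log 2 n + 2 : ℕ) := by
  have hn0 : n ≠ 0 := by omega
  have hpp : n.minFac.Prime := Nat.minFac_prime (by omega)
  set k := n.primeFactors.card with hk
  set Q := 4 * Nat.log 2 n + 2 with hQ
  have hk1 : 1 ≤ k := card_pos.2 (Nat.nonempty_primeFactors.2 hn)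
  have h1 : n.minFac ≤ Q ^ k := by
    refine (minFac_le hn h).trans ?_
    obtain ⟨j, hj⟩ : ∃ j, k = j + 1 := ⟨k - 1, by omega⟩
    rw [← hk, ← hQ, hj, Nat.add_sub_cancel, pow_succ, mul_comm]
    exact Nat.mul_le_mul_left _ (by omega)
  have h2 : n.minFac ^ k ≤ n := by
    calc n.minFac ^ k ≤ ∏ q ∈ n.primeFactors, q :=
          pow_card_le_prod _ _ _ fun q hq => Nat.minFac_le_of_dvd
            (Nat.prime_of_mem_primeFactors hq).two_le (Nat.dvd_of_mem_primeFactors hq)
      _ ≤ n := Nat.le_of_dvd (by omega) (Nat.prod_primeFactors_dvd n)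
  have hp0 : (0 : ℝ) < n.minFac := by exact_mod_cast hpp.pos
  have h3 : Real.log n.minFac ≤ k * Real.log Q := by
    rw [← Real.log_pow]; exact Real.log_le_log hp0 (by exact_mod_cast h1)
  have h4 : k * Real.log n.minFac ≤ Real.log n := by
    rw [← Real.log_pow]; exact Real.log_le_log (by positivity) (by exact_mod_cast h2)
  have h5 : 0 ≤ Real.log n.minFac := Real.log_natCast_nonneg _
  have h6 : 0 ≤ Real.log Q := Real.log_natCast_nonneg _
  calc Real.log n.minFac ^ 2 ≤ Real.log n.minFac * (k * Real.log Q) := by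
        rw [sq]; exact mul_le_mul_of_nonneg_left h3 h5
    _ = (k * Real.log n.minFac) * Real.log Q := by ring
    _ ≤ _ := mul_le_mul_of_nonneg_right h4 h6

lemma natlog_le {x : ℕ} (hx : 1 ≤ x) : (Nat.log 2 x : ℝ) ≤ 2 * Real.log x := by
  have h1 : ((2 ^ Nat.log 2 x : ℕ) : ℝ) ≤ x := by exact_mod_cast Nat.pow_log_le_self 2 (by omega)
  have h2 := Real.log_le_log (by positivity) h1
  rw [Nat.cast_pow, Real.log_pow] at h2
  have h3 : (1 / 2 : ℝ) ≤ Real.log (2 : ℕ) := by
    have := Real.log_two_gt_d9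
    push_cast; linarith
  have h4 := (mul_le_mul_of_nonneg_left h3 (Nat.cast_nonneg (α := ℝ) (Nat.log 2 x))).trans h2
  linarith

lemma le_exp_div (l : ℝ) (c : ℝ) (hc : 0 < c) : l ≤ c * Real.exp (l / c) := by
  have := Real.add_one_le_exp (l / c)
  have h2 : l = c * (l / c) := by field_simp
  nlinarith

section
variable {x : ℕ} (hx : 3 ≤ x) (hl : 1 < Real.log (Real.log x))
include hx hl

omit hl in
lemma L_pos : 1 < Real.log x := by
  rw [Real.lt_log_iff_exp_lt (by positivity)]
  have : (3 : ℝ) ≤ x := by exact_mod_cast hx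
  linarith [Real.exp_one_lt_three]

omit hl in
lemma rpow_inv_eq : (x : ℝ) ^ (1 / Real.log (Real.log x))
    = Real.exp (Real.log x / Real.log (Real.log x)) := by
  rw [Real.rpow_def_of_pos (by positivity)]; congr 1; ring

lemma fam_bound (Z : Finset ℕ) :
    ((fam x Z 1).card : ℝ) ≤ Real.exp (601 * (Real.log x / Real.log (Real.log x))) := by
  have hL := L_pos hx
  set L := Real.log x with hLdef
  set l := Real.log L with hldef
  have hexp : Real.exp l = L := Real.exp_log (by linarith)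
  set K := ⌈(2 : ℝ) ^ l⌉₊ with hK
  have h2l : (0 : ℝ) < 2 ^ l := by positivity
  have hK1 : 1 ≤ K := Nat.ceil_pos.2 h2l
  have hwt : wt (1 / l) K ≤ 1 / 2 := by
    unfold wt
    calc (K : ℝ) ^ (-(1 / l)) ≤ ((2 : ℝ) ^ l) ^ (-(1 / l)) :=
          Real.rpow_le_rpow_of_nonpos h2l (Nat.le_ceil _) (by
            have : 0 < 1 / l := by positivity
            linarith)
      _ = 1 / 2 := by
          rw [← Real.rpow_mul (by norm_num)]
          have : l * -(1 / l) = -1 := by field_simp
          rw [this, Real.rpow_neg_one]; norm_num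
  have h := card_fam_le (by positivity : 0 < 1 / l) K hK1 hwt x Z (3 * L)
    ((natlog_le (by omega)).trans (by linarith)) (by linarith)
  rw [rpow_inv_eq hx] at h
  refine h.trans ?_
  have hB : (3 * L) ^ K ≤ Real.exp (600 * (L / l)) := by
    have hlog : Real.log (3 * L) ≤ 3 * l := by
      rw [Real.log_mul (by norm_num) (by linarith)]
      have := Real.log_le_sub_one_of_pos (by norm_num : (0 : ℝ) < 3)
      linarith
    have hKle : (K : ℝ) ≤ 2 * Real.exp (l * (7 / 10)) := by
      have h1 : (K : ℝ) < 2 ^ l + 1 := Nat.ceil_lt_add_one h2l.le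
      have h2 : (2 : ℝ) ^ l ≤ Real.exp (l * (7 / 10)) := by
        rw [Real.rpow_def_of_pos (by norm_num)]
        apply Real.exp_le_exp.2
        have := Real.log_two_lt_d9
        nlinarith
      have h3 : 1 ≤ Real.exp (l * (7 / 10)) := Real.one_le_exp (by positivity)
      linarith
    have hl10 := le_exp_div l 10 (by norm_num)
    have hprod : Real.exp (l * (7 / 10)) * (Real.exp (l / 10) * Real.exp (l / 10)) ≤ L := by
      rw [← Real.exp_add, ← Real.exp_add, ← hexp]
      exact Real.exp_le_exp.2 (by linarith)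
    rw [← Real.exp_log (by linarith : 0 < 3 * L), ← Real.exp_nat_mul]
    apply Real.exp_le_exp.2
    rw [← mul_div_assoc, le_div_iff₀ (by linarith)]
    have e1 := Real.exp_pos (l / 10)
    have e2 := Real.exp_pos (l * (7 / 10))
    have h5 : l * l ≤ 100 * (Real.exp (l / 10) * Real.exp (l / 10)) := by nlinarith
    calc K * Real.log (3 * L) * l ≤ 2 * Real.exp (l * (7 / 10)) * (3 * l) * l := by
          apply mul_le_mul_of_nonneg_right _ (by linarith)
          exact mul_le_mul hKle hlog (Real.log_nonneg (by linarith)) (by positivity)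
      _ = 6 * (Real.exp (l * (7 / 10)) * (l * l)) := by ring
      _ ≤ 6 * (Real.exp (l * (7 / 10)) * (100 * (Real.exp (l / 10) * Real.exp (l / 10)))) := by
          gcongr
      _ ≤ 600 * L := by linarith
  calc Real.exp (L / l) * (3 * L) ^ K ≤ Real.exp (L / l) * Real.exp (600 * (L / l)) :=
        mul_le_mul_of_nonneg_left hB (Real.exp_pos _).le
    _ = _ := by rw [← Real.exp_add]; congr 1; ring

lemma minFac_bound {n : ℕ} (hn : 1 < n) (hnx : n ≤ x) (h : PD n) :
    (n.minFac : ℝ) ≤ Real.exp (11 * (Real.log x / Real.log (Real.log x))) := by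
  have hL := L_pos hx
  have h1 := log_minFac_sq hn h
  set L := Real.log x with hLdef
  set l := Real.log L with hldef
  have hexp : Real.exp l = L := Real.exp_log (by linarith)
  have h2 : Real.log n ≤ L := Real.log_le_log (by positivity) (by exact_mod_cast hnx)
  have h3 : Real.log (4 * Nat.log 2 n + 2 : ℕ) ≤ 4 * l := by
    have h4 : ((4 * Nat.log 2 n + 2 : ℕ) : ℝ) ≤ 10 * L := by
      have := natlog_le (x := n) (by omega)
      push_cast; linarith
    refine (Real.log_le_log (by positivity) h4).trans ?_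
    rw [Real.log_mul (by norm_num) (by linarith)]
    have : Real.log 10 ≤ 3 := by
      rw [Real.log_le_iff_le_exp (by norm_num)]
      have h5 : Real.exp 3 = Real.exp 1 ^ 3 := by rw [← Real.exp_nat_mul]; norm_num
      have h6 := Real.exp_one_gt_d9
      have h7 : (2.7 : ℝ) ^ 3 ≤ Real.exp 1 ^ 3 := by gcongr; linarith
      rw [h5]; nlinarith
    linarith
  have h5 : Real.log n.minFac ^ 2 ≤ L * (4 * l) :=
    h1.trans (mul_le_mul h2 h3 (Real.log_natCast_nonneg _) (by linarith))
  have hl3 := le_exp_div l 3 (by norm_num)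
  have h6 : l ^ 3 ≤ 27 * L := by
    calc l ^ 3 ≤ (3 * Real.exp (l / 3)) ^ 3 := by gcongr
      _ = 27 * L := by
        rw [mul_pow, ← Real.exp_nat_mul, ← hexp]; congr 1
        · norm_num
        · congr 1; push_cast; ring
  have h7 : L * (4 * l) ≤ (11 * (L / l)) ^ 2 := by
    rw [← mul_div_assoc, div_pow, le_div_iff₀ (by positivity)]
    nlinarith
  have h8 := abs_le_of_sq_le_sq' (h5.trans h7) (by positivity)
  rw [← Real.log_le_iff_le_exp (by exact_mod_cast n.minFac_pos)]
  exact h8.2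

open Classical in
lemma prim_bound :
    (((Icc 1 x).filter (fun n => 1 < n ∧ PP n ∧ ∀ c, 1 < c → Uni c n → PP c → c = n)).card : ℝ)
      ≤ Real.exp (612 * (Real.log x / Real.log (Real.log x))) := by
  set y := Real.exp (11 * (Real.log x / Real.log (Real.log x))) with hy
  have hsub : (Icc 1 x).filter (fun n => 1 < n ∧ PP n ∧ ∀ c, 1 < c → Uni c n → PP c → c = n)
      ⊆ (Icc 1 ⌊y⌋₊).biUnion (fun p => fam x {p} 1) := by
    intro n hn
    obtain ⟨h1, h2, h3, h4⟩ := mem_filter.1 hn
    have hD : PD n := by unfold PD; rw [← h3]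
    refine mem_biUnion.2 ⟨n.minFac, mem_Icc.2 ⟨n.minFac_pos,
      Nat.le_floor (minFac_bound hx hl h2 (mem_Icc.1 h1).2 hD)⟩,
      mem_fam.2 ⟨mem_Icc.1 h1, uni_one n, gen_of_prim h2 h4, hD⟩⟩
  calc _ ≤ (((Icc 1 ⌊y⌋₊).biUnion (fun p => fam x {p} 1)).card : ℝ) := by
        exact_mod_cast card_le_card hsub
    _ ≤ ∑ p ∈ Icc 1 ⌊y⌋₊, ((fam x {p} 1).card : ℝ) := by exact_mod_cast card_biUnion_le
    _ ≤ ∑ p ∈ Icc 1 ⌊y⌋₊, Real.exp (601 * (Real.log x / Real.log (Real.log x))) :=
        sum_le_sum fun p _ => fam_bound hx hl _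
    _ = ⌊y⌋₊ * Real.exp (601 * (Real.log x / Real.log (Real.log x))) := by simp
    _ ≤ y * Real.exp (601 * (Real.log x / Real.log (Real.log x))) :=
        mul_le_mul_of_nonneg_right (Nat.floor_le (Real.exp_pos _).le) (Real.exp_pos _).le
    _ = _ := by rw [hy, ← Real.exp_add]; congr 1; ring

lemma mills_bound :
    (((((range x).image (fun k => (chain (k + 1)).1)).powerset).filter
      (fun T => ∏ z ∈ T, z ≤ x)).card : ℝ)
      ≤ Real.exp (13 * (Real.log x / Real.log (Real.log x))) := by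
  have hL := L_pos hx
  have hrp := rpow_inv_eq hx
  set L := Real.log x with hLdef
  set l := Real.log L with hldef
  have hexp : Real.exp l = L := Real.exp_log (by linarith)
  set A := (range x).image (fun k => (chain (k + 1)).1) with hA
  have hδ : 0 < 1 / l := by positivity
  have hA1 : ∀ z ∈ A, 1 ≤ z := by
    intro z hz
    obtain ⟨k, -, rfl⟩ := mem_image.1 hz
    exact (Nat.one_le_two_pow).trans (chain_grow k).1
  have hwp : ∀ T : Finset ℕ, wt (1 / l) (∏ z ∈ T, z) = ∏ z ∈ T, wt (1 / l) z := by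
    intro T
    induction T using Finset.induction_on with
    | empty => simp [wt_one]
    | insert a s ha ih => rw [prod_insert ha, prod_insert ha, wt_mul, ih]
  have hpow : ∀ e, wt (1 / l) (2 ^ e) = wt (1 / l) 2 ^ e := by
    intro e
    induction e with
    | zero => simp [wt_one]
    | succ e ih => rw [pow_succ, wt_mul, ih, pow_succ]
  set r := wt (1 / l) 2 with hr
  have hr0 : 0 ≤ r := wt_nonneg _ _
  have hr1 : r ≤ 1 - 1 / (3 * l) := by
    have h1 : r = Real.exp (-(Real.log 2 / l)) := by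
      rw [hr, wt, Real.rpow_def_of_pos (by norm_num)]; congr 1; push_cast; ring
    have h2 := Real.add_one_le_exp (Real.log 2 / l)
    have h3 := Real.log_two_gt_d9
    have h4 : 1 / (2 * l) ≤ Real.log 2 / l := by
      rw [div_le_div_iff₀ (by linarith) (by linarith)]; nlinarith
    rw [h1, Real.exp_neg, inv_le_comm₀ (Real.exp_pos _) (by
      rw [sub_pos, div_lt_one (by linarith)]; linarith)]
    refine le_trans ?_ (le_trans (add_le_add_left h4 1) h2)
    rw [inv_le_comm₀ (by rw [sub_pos, div_lt_one (by linarith)]; linarith) (by positivity)]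
    have : (1 / (2 * l) + 1)⁻¹ = 1 - 1 / (2 * l + 1) := by field_simp; ring
    rw [this]
    have : 1 / (3 * l) ≤ 1 / (2 * l + 1) := one_div_le_one_div_of_le (by linarith) (by linarith)
    linarith
  have hsum : ∑ z ∈ A, wt (1 / l) z ≤ 3 * l := by
    calc ∑ z ∈ A, wt (1 / l) z ≤ ∑ k ∈ range x, wt (1 / l) (chain (k + 1)).1 :=
          sum_image_le_of_nonneg fun _ _ => wt_nonneg _ _
      _ ≤ ∑ k ∈ range x, r ^ k := sum_le_sum fun k _ => by
          rw [← hpow]; exact wt_anti hδ Nat.one_le_two_pow (chain_grow k).1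
      _ ≤ 3 * l := by
          have h1 := mul_neg_geom_sum r x
          have h2 : 0 ≤ ∑ k ∈ range x, r ^ k := sum_nonneg fun k _ => pow_nonneg hr0 k
          have h3 : 1 / (3 * l) * ∑ k ∈ range x, r ^ k ≤ 1 := by
            nlinarith [pow_nonneg hr0 x]
          rwa [one_div, inv_mul_le_iff₀ (by linarith), mul_one] at h3
  have h12 : 3 * l ≤ 12 * (L / l) := by
    have := le_exp_div l 2 (by norm_num)
    have h2 : Real.exp (l / 2) * Real.exp (l / 2) = L := by
      rw [← Real.exp_add, ← hexp]; congr 1; ring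
    rw [← mul_div_assoc, le_div_iff₀ (by linarith)]
    nlinarith [Real.exp_pos (l / 2)]
  calc _ = ∑ T ∈ A.powerset.filter (fun T => ∏ z ∈ T, z ≤ x), (1 : ℝ) := by simp
    _ ≤ ∑ T ∈ A.powerset.filter (fun T => ∏ z ∈ T, z ≤ x),
          (x : ℝ) ^ (1 / l) * ∏ z ∈ T, wt (1 / l) z := by
        refine sum_le_sum fun T hT => ?_
        rw [← hwp]
        exact one_le_wt hδ (one_le_prod' fun z hz =>
          hA1 z (mem_powerset.1 (mem_filter.1 hT).1 hz)) (mem_filter.1 hT).2
    _ ≤ ∑ T ∈ A.powerset, (x : ℝ) ^ (1 / l) * ∏ z ∈ T, wt (1 / l) z :=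
        sum_le_sum_of_subset_of_nonneg (filter_subset _ _) fun T _ _ =>
          mul_nonneg (by positivity) (prod_nonneg fun z _ => wt_nonneg _ _)
    _ = (x : ℝ) ^ (1 / l) * ∏ z ∈ A, (1 + wt (1 / l) z) := by rw [← mul_sum, prod_one_add]
    _ ≤ Real.exp (L / l) * Real.exp (12 * (L / l)) := by
        rw [hrp]
        refine mul_le_mul_of_nonneg_left ?_ (Real.exp_pos _).le
        calc ∏ z ∈ A, (1 + wt (1 / l) z) ≤ ∏ z ∈ A, Real.exp (wt (1 / l) z) :=
              prod_le_prod (fun z _ => by linarith [wt_nonneg (1 / l) z])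
                fun z _ => by linarith [Real.add_one_le_exp (wt (1 / l) z)]
          _ = Real.exp (∑ z ∈ A, wt (1 / l) z) := (Real.exp_sum _ _).symm
          _ ≤ _ := Real.exp_le_exp.2 (hsum.trans h12)
    _ = _ := by rw [← Real.exp_add]; congr 1; ring

open Classical in
lemma odd_bound :
    (((Icc 1 x).filter (fun n => Odd n ∧ PP n)).card : ℝ)
      ≤ (x : ℝ) ^ (1 / 6 : ℝ) * Real.exp (614 * (Real.log x / Real.log (Real.log x))) := by
  set y := (x : ℝ) ^ (1 / 6 : ℝ) with hy
  set W := (((range x).image (fun k => (chain (k + 1)).1)).powerset).filter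
      (fun T => ∏ z ∈ T, z ≤ x) with hW
  have hsub : (Icc 1 x).filter (fun n => Odd n ∧ PP n)
      ⊆ (Icc 1 ⌊y⌋₊ ×ˢ W).biUnion (fun a => fam x (a.1.primeFactors ∪ a.2) 1) := by
    intro n hn
    obtain ⟨h1, h2, h3⟩ := mem_filter.1 hn
    obtain ⟨hn1, hnx⟩ := mem_Icc.1 h1
    have hD : PD n := by unfold PD; rw [← h3]
    obtain ⟨Z₁, Z₂, hG, h6, hM⟩ := exists_seeds h2 h3
    have hZ1 : ∀ z ∈ Z₁, z.Prime := fun z hz =>
      Nat.prime_of_mem_primeFactors (hG.1 (mem_union_left _ hz))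
    have hZ2 : Z₂ ⊆ n.primeFactors := union_subset_right hG.1
    refine mem_biUnion.2 ⟨(∏ z ∈ Z₁, z, Z₂), mem_product.2 ⟨mem_Icc.2 ⟨?_, ?_⟩, ?_⟩, ?_⟩
    · exact one_le_prod' fun z hz => (hZ1 z hz).one_le
    · apply Nat.le_floor
      rw [hy, one_div, Real.le_rpow_inv_iff_of_pos (by positivity) (by positivity) (by norm_num)]
      exact_mod_cast h6.trans hnx
    · refine mem_filter.2 ⟨mem_powerset.2 fun z hz => ?_, ?_⟩
      · obtain ⟨k, hk⟩ := (hM z hz).mem (Nat.prime_of_mem_primeFactors (hZ2 hz)).one_le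
        refine mem_image.2 ⟨k, mem_range.2 ?_, hk.symm⟩
        have h4 := (chain_grow k).1
        have h5 := Nat.le_of_dvd hn1 (Nat.dvd_of_mem_primeFactors (hZ2 hz))
        have h7 : k < 2 ^ k := Nat.lt_two_pow_self
        omega
      · exact (Nat.le_of_dvd hn1 ((prod_dvd_prod_of_subset _ _ _ hZ2).trans
          (Nat.prod_primeFactors_dvd n))).trans hnx
    · simp only [Nat.primeFactors_prod hZ1]
      exact mem_fam.2 ⟨⟨hn1, hnx⟩, uni_one n, hG, hD⟩
  calc _ ≤ (((Icc 1 ⌊y⌋₊ ×ˢ W).biUnion (fun a => fam x (a.1.primeFactors ∪ a.2) 1)).card : ℝ) := by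
        exact_mod_cast card_le_card hsub
    _ ≤ ∑ a ∈ Icc 1 ⌊y⌋₊ ×ˢ W, ((fam x (a.1.primeFactors ∪ a.2) 1).card : ℝ) := by
        exact_mod_cast card_biUnion_le
    _ ≤ ∑ a ∈ Icc 1 ⌊y⌋₊ ×ˢ W, Real.exp (601 * (Real.log x / Real.log (Real.log x))) :=
        sum_le_sum fun p _ => fam_bound hx hl _
    _ = ⌊y⌋₊ * (W.card * Real.exp (601 * (Real.log x / Real.log (Real.log x)))) := by
        simp [mul_assoc]
    _ ≤ y * (Real.exp (13 * (Real.log x / Real.log (Real.log x)))
          * Real.exp (601 * (Real.log x / Real.log (Real.log x)))) := by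
        apply mul_le_mul (Nat.floor_le (by positivity)) _ (by positivity) (by positivity)
        exact mul_le_mul_of_nonneg_right (mills_bound hx hl) (Real.exp_pos _).le
    _ = _ := by rw [← Real.exp_add]; congr 2; ring

end

lemma small_bound {x : ℕ} (hx : 3 ≤ x) (hl : Real.log (Real.log x) ≤ 1) (T : Finset ℕ)
    (hT : T ⊆ Icc 1 x) :
    (T.card : ℝ) ≤ Real.exp (614 * (Real.log x / Real.log (Real.log x))) := by
  have hL := L_pos hx
  have hl0 : 0 < Real.log (Real.log x) := Real.log_pos hL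
  have h1 : T.card ≤ x := (card_le_card hT).trans (by simp)
  have h2 : Real.log x ≤ Real.log x / Real.log (Real.log x) := le_div_self (by linarith) hl0 hl
  calc (T.card : ℝ) ≤ x := by exact_mod_cast h1
    _ = Real.exp (Real.log x) := (Real.exp_log (by positivity)).symm
    _ ≤ _ := Real.exp_le_exp.2 (by linarith)

theorem count_prim {x : ℕ} (hx : 3 ≤ x) :
    ({n : ℕ | n ≤ x ∧ 1 < n ∧ PP n ∧ ∀ c, 1 < c → Uni c n → PP c → c = n}.ncard : ℝ)
      ≤ Real.exp (614 * (Real.log x / Real.log (Real.log x))) := by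
  classical
  have e : {n : ℕ | n ≤ x ∧ 1 < n ∧ PP n ∧ ∀ c, 1 < c → Uni c n → PP c → c = n}
      = ↑((Icc 1 x).filter (fun n => 1 < n ∧ PP n ∧ ∀ c, 1 < c → Uni c n → PP c → c = n)) := by
    ext n
    simp only [Set.mem_ofPred_eq, coe_filter, mem_Icc]
    exact ⟨fun h => ⟨⟨h.2.1.le, h.1⟩, h.2⟩, fun h => ⟨h.1.2, h.2⟩⟩
  rw [e, Set.ncard_coe_finset]
  rcases le_or_gt (Real.log (Real.log x)) 1 with hl | hl
  · exact small_bound hx hl _ (filter_subset _ _)
  · have h0 : 0 ≤ Real.log x / Real.log (Real.log x) :=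
      div_nonneg (by linarith [L_pos hx]) (by linarith)
    exact (prim_bound hx hl).trans (Real.exp_le_exp.2 (by linarith))

theorem count_odd {x : ℕ} (hx : 3 ≤ x) :
    ({n : ℕ | n ≤ x ∧ Odd n ∧ PP n}.ncard : ℝ)
      ≤ (x : ℝ) ^ (1 / 6 : ℝ) * Real.exp (614 * (Real.log x / Real.log (Real.log x))) := by
  classical
  have e : {n : ℕ | n ≤ x ∧ Odd n ∧ PP n} = ↑((Icc 1 x).filter (fun n => Odd n ∧ PP n)) := by
    ext n
    simp only [Set.mem_ofPred_eq, coe_filter, mem_Icc]
    exact ⟨fun h => ⟨⟨h.2.1.pos, h.1⟩, h.2⟩, fun h => ⟨h.1.2, h.2⟩⟩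
  rw [e, Set.ncard_coe_finset]
  rcases le_or_gt (Real.log (Real.log x)) 1 with hl | hl
  · refine (small_bound hx hl _ (filter_subset _ _)).trans
      (le_mul_of_one_le_left (Real.exp_pos _).le ?_)
    exact Real.one_le_rpow (by exact_mod_cast (by omega : 1 ≤ x)) (by norm_num)
  · exact odd_bound hx hl

end Pool.Agent.MP_bd9ace_nt.H68
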